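import Mathlib

/-! The sweep: combinatorial part of BALANCE (MP_19149c_co, think note 2620). -/

set_option autoImplicit false

namespace H19.LR

open Finset

private theorem sg {x y t : ℝ} (hy : y ≠ 0) : (0 < x + t * y ↔ (0 < y ∧ -x / y < t) ∨ (y < 0 ∧ t < -x / y)) ∧
    (x + t * y = 0 ↔ -x / y = t) := by
  refine ⟨?_, ?_⟩
  · rcases lt_or_gt_of_ne hy with h | h
    · rw [lt_div_iff_of_neg h]
      constructor
      · intro h1
        exact Or.inr ⟨h, by linarith⟩
      · rintro (⟨h1, -⟩ | ⟨-, h1⟩)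
        · exact absurd h1 (not_lt.2 h.le)
        · linarith
    · rw [div_lt_iff₀ h]
      constructor
      · intro h1
        exact Or.inl ⟨h, by linarith⟩
      · rintro (⟨-, h1⟩ | ⟨h1, -⟩)
        · linarith
        · exact absurd h1 (not_lt.2 h.le)
  · rw [div_eq_iff hy]
    constructor
    · intro h
      linarith
    · intro h
      linarith

open Classical in
private theorem sweepF {ι : Type*} (x y : ι → ℝ) (W : Finset ι) (hy : ∀ i ∈ W, y i ≠ 0)
    (hW : ∀ t : ℝ, 2 * (W.filter fun i => x i + t * y i = 0).card ≤ W.card)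
    (hbig : 3 * W.card < 4 * (W.filter fun i => 0 < y i).card) :
    ∃ a b : ℝ, a < b ∧ ∀ t, a < t → t < b → (∀ i ∈ W, x i + t * y i ≠ 0) ∧
      W.card ≤ 4 * (W.filter fun i => 0 < x i + t * y i).card ∧
      W.card ≤ 4 * (W.filter fun i => x i + t * y i < 0).card := by
  obtain ⟨τ, hτ⟩ : ∃ τ : ι → ℝ, ∀ i, τ i = -x i / y i := ⟨_, fun _ => rfl⟩
  obtain ⟨G, hG⟩ : ∃ G : ℝ → Finset ι, ∀ t, G t = W.filter fun i => (0 < y i ∧ τ i ≤ t) ∨ (y i < 0 ∧ t < τ i) :=
    ⟨_, fun _ => rfl⟩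
  obtain ⟨L, hL⟩ : ∃ L : ℝ → Finset ι, ∀ t, L t = W.filter fun i => (0 < y i ∧ τ i < t) ∨ (y i < 0 ∧ t ≤ τ i) :=
    ⟨_, fun _ => rfl⟩
  have hpos : ∀ i ∈ W, ∀ t, 0 < x i + t * y i ↔ (0 < y i ∧ τ i < t) ∨ (y i < 0 ∧ t < τ i) := fun i hi t => by
    rw [hτ]
    exact (sg (hy i hi)).1
  have hzer : ∀ i ∈ W, ∀ t, x i + t * y i = 0 ↔ τ i = t := fun i hi t => by
    rw [hτ]
    exact (sg (hy i hi)).2
  -- the breakpoints
  have hne : (W.image τ).Nonempty := by
    rw [image_nonempty]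
    by_contra h
    rw [not_nonempty_iff_eq_empty] at h
    subst h
    simp at hbig
  have hT' : ((W.image τ).filter fun t => 3 * W.card < 4 * (G t).card).Nonempty := by
    refine ⟨(W.image τ).max' hne, mem_filter.2 ⟨max'_mem _ _, ?_⟩⟩
    refine lt_of_lt_of_le hbig (Nat.mul_le_mul_left _ (card_le_card fun i hi => ?_))
    rw [mem_filter] at hi
    rw [hG, mem_filter]
    exact ⟨hi.1, Or.inl ⟨hi.2, le_max' _ _ (mem_image_of_mem τ hi.1)⟩⟩
  obtain ⟨t₀, ht₀⟩ : ∃ t₀, t₀ = ((W.image τ).filter fun t => 3 * W.card < 4 * (G t).card).min' hT' := ⟨_, rfl⟩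
  have hm : 3 * W.card < 4 * (G t₀).card := by
    have := min'_mem _ hT'
    rw [← ht₀, mem_filter] at this
    exact this.2
  have hmin : ∀ t ∈ W.image τ, t < t₀ → 4 * (G t).card ≤ 3 * W.card := by
    intro t ht hlt
    by_contra hcon
    push Not at hcon
    have h1 : t ∈ (W.image τ).filter fun t => 3 * W.card < 4 * (G t).card := mem_filter.2 ⟨ht, hcon⟩
    have := min'_le _ t h1
    rw [← ht₀] at this
    exact absurd hlt (not_lt.2 this)
  -- the jump at `t₀`
  have hjump : (G t₀).card ≤ (L t₀).card + (W.filter fun i => x i + t₀ * y i = 0).card := by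
    refine (card_le_card ?_).trans (card_union_le _ _)
    intro i hi
    rw [hG, mem_filter] at hi
    rw [mem_union, hL, mem_filter, mem_filter]
    rcases hi.2 with ⟨h1, h2⟩ | ⟨h1, h2⟩
    · rcases h2.lt_or_eq with h3 | h3
      · exact Or.inl ⟨hi.1, Or.inl ⟨h1, h3⟩⟩
      · exact Or.inr ⟨hi.1, (hzer i hi.1 _).2 h3⟩
    · exact Or.inl ⟨hi.1, Or.inr ⟨h1, h2.le⟩⟩
  have hW0 := hW t₀
  -- the interval
  obtain ⟨a, ha, hab, hLa⟩ : ∃ a, a < t₀ ∧ (∀ i ∈ W, τ i < t₀ → τ i ≤ a) ∧ 4 * (L t₀).card ≤ 3 * W.card := by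
    by_cases hlow : ((W.image τ).filter fun t => t < t₀).Nonempty
    · obtain ⟨t₁, ht₁⟩ : ∃ t₁, t₁ = ((W.image τ).filter fun t => t < t₀).max' hlow := ⟨_, rfl⟩
      have h1 : t₁ ∈ W.image τ ∧ t₁ < t₀ := by
        have := max'_mem _ hlow
        rw [← ht₁, mem_filter] at this
        exact this
      have h2 : ∀ i ∈ W, τ i < t₀ → τ i ≤ t₁ := by
        intro i hi h
        rw [ht₁]
        exact le_max' _ _ (mem_filter.2 ⟨mem_image_of_mem τ hi, h⟩)
      refine ⟨t₁, h1.2, h2, ?_⟩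
      have h3 : L t₀ ⊆ G t₁ := by
        intro i hi
        rw [hL, mem_filter] at hi
        rw [hG, mem_filter]
        refine ⟨hi.1, hi.2.imp (fun h => ⟨h.1, h2 i hi.1 h.2⟩) (fun h => ⟨h.1, lt_of_lt_of_le h1.2 h.2⟩)⟩
      exact (Nat.mul_le_mul_left _ (card_le_card h3)).trans (hmin t₁ h1.1 h1.2)
    · rw [not_nonempty_iff_eq_empty, filter_eq_empty_iff] at hlow
      have h1 : ∀ i ∈ W, ¬ τ i < t₀ := fun i hi => hlow (mem_image_of_mem τ hi)
      refine ⟨t₀ - 1, by linarith, fun i hi h => absurd h (h1 i hi), ?_⟩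
      have h2 : (L t₀).card ≤ (W.filter fun i => ¬ 0 < y i).card := by
        refine card_le_card fun i hi => ?_
        rw [hL, mem_filter] at hi
        rw [mem_filter]
        refine ⟨hi.1, ?_⟩
        rcases hi.2 with ⟨-, h⟩ | ⟨h, -⟩
        · exact absurd h (h1 i hi.1)
        · exact not_lt.2 h.le
      have h3 := card_filter_add_card_filter_not (s := W) (fun i => 0 < y i)
      omega
  refine ⟨a, t₀, ha, fun t hat htb => ?_⟩
  have e1 : ∀ i ∈ W, x i + t * y i ≠ 0 := by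
    intro i hi h
    rw [hzer i hi] at h
    have := hab i hi (by rw [h]; exact htb)
    rw [h] at this
    exact absurd hat (not_lt.2 this)
  have e2 : (W.filter fun i => 0 < x i + t * y i) = L t₀ := by
    rw [hL]
    refine filter_congr fun i hi => ?_
    rw [hpos i hi]
    refine or_congr (and_congr Iff.rfl ⟨fun h => h.trans htb, fun h => lt_of_le_of_lt (hab i hi h) hat⟩)
      (and_congr Iff.rfl ⟨fun h => ?_, fun h => lt_of_lt_of_le htb h⟩)
    by_contra hcon
    exact absurd (lt_of_le_of_lt (hab i hi (not_le.1 hcon)) hat) (not_lt.2 h.le)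
  have e3 : (W.filter fun i => 0 < x i + t * y i).card + (W.filter fun i => x i + t * y i < 0).card = W.card := by
    rw [← card_filter_add_card_filter_not (s := W) (fun i => 0 < x i + t * y i)]
    congr 2
    refine filter_congr fun i hi => ?_
    rw [not_lt]
    exact ⟨fun h => h.le, fun h => lt_of_le_of_ne h (e1 i hi)⟩
  refine ⟨e1, ?_, ?_⟩
  · rw [e2]
    omega
  · rw [e2] at e3
    omega

/-- **sweep**: `x, y : ι → ℝ`, `y` has no zero on `W`; at each time at most half of `W` vanishes;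
more than three quarters of `W` has `y > 0`. Then there is an open interval of times at which no element of
`W` vanishes and both sides have at least a quarter of `W`. -/
theorem sweep {ι : Type*} [Fintype ι] (x y : ι → ℝ) (W : Set ι) (hy : ∀ i ∈ W, y i ≠ 0)
    (hW : ∀ t : ℝ, 2 * {i | i ∈ W ∧ x i + t * y i = 0}.ncard ≤ W.ncard)
    (hbig : 3 * W.ncard < 4 * {i | i ∈ W ∧ 0 < y i}.ncard) :
    ∃ a b : ℝ, a < b ∧ ∀ t, a < t → t < b → (∀ i ∈ W, x i + t * y i ≠ 0) ∧
      W.ncard ≤ 4 * {i | i ∈ W ∧ 0 < x i + t * y i}.ncard ∧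
      W.ncard ≤ 4 * {i | i ∈ W ∧ x i + t * y i < 0}.ncard := by
  classical
  have hc : ∀ p : ι → Prop, {i | i ∈ W ∧ p i}.ncard = (W.toFinset.filter p).card := by
    intro p
    rw [← Set.ncard_coe_finset]
    congr 1
    ext i
    simp
  have h0 : W.ncard = W.toFinset.card := Set.ncard_eq_toFinset_card' W
  simp only [hc, h0] at hW hbig ⊢
  obtain ⟨a, b, h1, h2⟩ := sweepF x y W.toFinset (fun i hi => hy i (Set.mem_toFinset.1 hi)) hW hbig
  exact ⟨a, b, h1, fun t h3 h4 => ⟨fun i hi => (h2 t h3 h4).1 i (Set.mem_toFinset.2 hi), (h2 t h3 h4).2⟩⟩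

end H19.LR
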